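import Mathlib

/-!
# Circular mixing threshold versus circular chromatic number
-/

namespace Pool.Agent.Results.MP_3baeb2_co.MixingEqCircular

/-! ## Definitions used in the statement -/

/-- `f` is a `(k, q)`-colouring of `G`. -/
def IsCircCol {V : Type*} (G : SimpleGraph V) (k q : ℕ) (f : V → Fin k) : Prop :=
  ∀ u v, G.Adj u v → (q : ℤ) ≤ |((f u : ℕ) : ℤ) - ((f v : ℕ) : ℤ)| ∧
    |((f u : ℕ) : ℤ) - ((f v : ℕ) : ℤ)| ≤ (k : ℤ) - (q : ℤ)

/-- A recolouring step: two `(k, q)`-colourings that agree except possibly at one vertex. -/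
def Step {V : Type*} (G : SimpleGraph V) (k q : ℕ) (f g : V → Fin k) : Prop :=
  IsCircCol G k q f ∧ IsCircCol G k q g ∧ ∃ v, ∀ w, w ≠ v → f w = g w

/-- `G` is `(k, q)`-mixing. -/
def Mixing {V : Type*} (G : SimpleGraph V) (k q : ℕ) : Prop :=
  ∀ f g : V → Fin k, IsCircCol G k q f → IsCircCol G k q g →
    Relation.ReflTransGen (Step G k q) f g

/-- The circular mixing threshold: the infimum of the rationals `l` such that `G` is
`(k, q)`-mixing for all positive integers `k, q` with `k / q ≥ l`. -/
noncomputable def circMixingThreshold {V : Type*} (G : SimpleGraph V) : ℝ :=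
  sInf {x : ℝ | ∃ l : ℚ, x = (l : ℝ) ∧
    ∀ k q : ℕ, 0 < k → 0 < q → l ≤ (k : ℚ) / (q : ℚ) → Mixing G k q}

/-- The circular chromatic number: the infimum of all `k / q` such that `G` has a
`(k, q)`-colouring. -/
noncomputable def circChromaticNumber {V : Type*} (G : SimpleGraph V) : ℝ :=
  sInf {x : ℝ | ∃ k q : ℕ, 0 < k ∧ 0 < q ∧ x = (k : ℝ) / (q : ℝ) ∧
    ∃ f : V → Fin k, IsCircCol G k q f}

/-! ## The Moser spindle -/

/-- Edges of the Moser spindle, one orientation. -/
def e0 : Fin 7 → Fin 7 → Bool
  | 0, 1 => true | 0, 2 => true | 0, 4 => true | 0, 5 => true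
  | 1, 2 => true | 1, 3 => true | 2, 3 => true
  | 4, 5 => true | 4, 6 => true | 5, 6 => true | 3, 6 => true
  | _, _ => false

/-- Adjacency of the Moser spindle. -/
def e (x y : Fin 7) : Bool := e0 x y || e0 y x

lemma e_symm (x y : Fin 7) : e x y = e y x := by
  unfold e; rw [Bool.or_comm]

lemma e_irrefl (x : Fin 7) : e x x = false := by revert x; decide

/-- The Moser spindle with an additional vertex joined to all its vertices. -/
def G : SimpleGraph (Option (Fin 7)) where
  Adj u v := match u, v with
    | none, none => False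
    | none, some _ => True
    | some _, none => True
    | some x, some y => e x y = true
  symm := ⟨by
    rintro (_ | x) (_ | y) h
    · exact h
    · trivial
    · trivial
    · change e y x = true
      rw [e_symm]; exact h⟩
  loopless := ⟨by
    rintro (_ | x) h
    · exact h
    · have h' : e x x = true := h
      rw [e_irrefl] at h'; cases h'⟩

/-- Proper colourings of the spindle with colours `1, ..., M`. -/
def PropC (M : ℕ) (c : Fin 7 → ℕ) : Prop :=
  (∀ x, 1 ≤ c x ∧ c x ≤ M) ∧ ∀ x y, e x y = true → c x ≠ c y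

/-- One vertex recolouring of colourings of the spindle. -/
def StepC (M : ℕ) (c d : Fin 7 → ℕ) : Prop :=
  PropC M c ∧ PropC M d ∧ ∃ v, ∀ w, w ≠ v → c w = d w

lemma propC_iff (M : ℕ) (c : Fin 7 → ℕ) : PropC M c ↔
    (∀ x, 1 ≤ c x ∧ c x ≤ M) ∧ c 0 ≠ c 1 ∧ c 0 ≠ c 2 ∧ c 0 ≠ c 4 ∧ c 0 ≠ c 5 ∧ c 1 ≠ c 2 ∧
      c 1 ≠ c 3 ∧ c 2 ≠ c 3 ∧ c 4 ≠ c 5 ∧ c 4 ≠ c 6 ∧ c 5 ≠ c 6 ∧ c 3 ≠ c 6 := by
  unfold PropC
  constructor
  · rintro ⟨h1, h2⟩
    exact ⟨h1, h2 0 1 (by decide), h2 0 2 (by decide), h2 0 4 (by decide), h2 0 5 (by decide),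
      h2 1 2 (by decide), h2 1 3 (by decide), h2 2 3 (by decide), h2 4 5 (by decide),
      h2 4 6 (by decide), h2 5 6 (by decide), h2 3 6 (by decide)⟩
  · rintro ⟨h1, h01, h02, h04, h05, h12, h13, h23, h45, h46, h56, h36⟩
    refine ⟨h1, ?_⟩
    intro x y hxy
    fin_cases x <;> fin_cases y <;>
      first
        | exact absurd hxy (by decide)
        | assumption
        | exact Ne.symm (by assumption)

/-- Digits in base four. -/
def dg (n i : ℕ) : ℕ := n / 4 ^ i % 4

/-- The colouring with code `n`. -/
def col (n : ℕ) : Fin 7 → ℕ := fun i => dg n i + 1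

/-- Properness on codes. -/
def properN (n : ℕ) : Bool :=
  dg n 0 != dg n 1 && dg n 0 != dg n 2 && dg n 0 != dg n 4 && dg n 0 != dg n 5 &&
  dg n 1 != dg n 2 && dg n 1 != dg n 3 && dg n 2 != dg n 3 && dg n 4 != dg n 5 &&
  dg n 4 != dg n 6 && dg n 5 != dg n 6 && dg n 3 != dg n 6

/-- Codes differing in at most one digit. -/
def oneDiff (n m : ℕ) : Bool :=
  (List.range 7).any (fun v => (List.range 7).all (fun w => w == v || dg n w == dg m w))

/-- Each code in the list is proper and one step away from an earlier code. -/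
def okList : List ℕ → List (ℕ × ℕ) → Bool
  | _, [] => true
  | seen, nm :: rest =>
    seen.contains nm.2 && oneDiff nm.1 nm.2 && properN nm.1 && okList (nm.1 :: seen) rest

/-- The code of the root colouring. -/
def root : ℕ := 14628

/-- Breadth first search tree: pairs (code, parent code). -/
def pairs : List (ℕ × ℕ) :=
  [(14631,14628), (14636,14628), (14644,14628), (14375,14631), (12583,14631), (14620,14636),
   (14700,14636), (14648,14644), (14772,14644), (13351,14375), (6183,14375), (12839,12583),
   (8487,12583), (14616,14620), (14748,14620), (2412,14700), (14712,14648), (2484,14772),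
   (13863,13351), (9255,13351), (6375,6183), (4647,12839), (8679,8487), (14619,14616),
   (2460,14748), (2924,2412), (3436,2412), (2424,14712), (2996,2484), (3508,2484), (13860,13863),
   (9447,9255), (6371,6375), (6343,6375), (4839,4647), (8675,8679), (8647,8679), (14363,14619),
   (12571,14619), (2972,2460), (3484,2460), (2925,2924), (1900,2924), (3692,3436), (11628,3436),
   (2936,2424), (3448,2424), (1972,2996), (7092,2996), (3510,3508), (3764,3508), (13868,13860),
   (13876,13860), (9443,9447), (9415,9447), (6369,6371), (6355,6371), (6347,6343), (6279,6343),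
   (4835,4839), (4807,4839), (8659,8675), (8547,8675), (8646,8647), (8651,8647), (13339,14363),
   (6171,14363), (12827,12571), (8475,12571), (1948,2972), (7068,2972), (3486,3484), (3740,3484),
   (2913,2925), (2893,2925), (1644,1900), (10092,1900), (3693,3692), (11564,11628), (2937,2936),
   (1912,2936), (3704,3448), (11640,3448), (1974,1972), (1716,1972), (6964,7092), (3506,3510),
   (3462,3510), (7860,3764), (13852,13868), (13932,13868), (13880,13876), (14004,13876),
   (9427,9443), (9315,9443), (9414,9415), (9419,9415), (7137,6369), (7393,6369), (6363,6355),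
   (6291,6355), (6345,6347), (14471,6279), (4833,4835), (4819,4835), (4811,4807), (4743,4807),
   (8658,8659), (8667,8659), (12643,8547), (9158,8646), (11718,8646), (8523,8651), (13851,13339),
   (9243,13339), (4635,12827), (1950,1948), (1692,1948), (6940,7068), (3474,3486), (3470,3486),
   (7836,3740), (2929,2913), (3041,2913), (2889,2893), (2957,2893), (10028,10092), (3681,3693),
   (3661,3693), (11556,11564), (11548,11564), (1656,1912), (10104,1912), (3705,3704),
   (11576,11640), (1970,1974), (1926,1974), (6968,6964), (6948,6964), (3442,3506), (3526,3462),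
   (7732,7860), (13848,13852), (13980,13852), (13944,13880), (9426,9427), (9435,9427),
   (13411,9315), (10182,9414), (11462,9414), (9291,9419), (5089,7137), (7905,7393), (11489,7393),
   (14483,6291), (7113,6345), (7369,6345), (14727,14471), (13447,14471), (4827,4819),
   (4755,4819), (4809,4811), (12935,4743), (9170,8658), (11730,8658), (12899,12643),
   (14691,12643), (5062,9158), (12619,8523), (1938,1950), (1934,1950), (6936,6940), (6956,6940),
   (3538,3474), (3406,3470), (7708,7836), (2993,2929), (3017,2889), (7053,2957), (10020,10028),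
   (10012,10028), (3697,3681), (3809,3681), (3657,3661), (3725,3661), (11572,11556),
   (11748,11556), (11550,11548), (11544,11548), (10040,10104), (1906,1970), (1990,1926),
   (6969,6968), (7140,6948), (11634,3442), (7736,7732), (7716,7732), (10194,9426), (11474,9426),
   (13923,13411), (14435,13411), (7366,11462), (13387,9291), (9185,5089), (11361,11489),
   (14739,14483), (13459,14483), (5065,7113), (7881,7369), (11465,7369), (12679,14727),
   (2439,14727), (13446,13447), (13959,13447), (12947,4755), (5074,9170), (12897,12899),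
   (2403,14691), (4998,5062), (12875,12619), (14667,12619), (2002,1938), (1870,1934),
   (7128,6936), (6957,6956), (11598,3406), (7704,7708), (7724,7708), (7089,2993), (6285,7053),
   (5005,7053), (10036,10020), (10212,10020), (10014,10012), (10008,10012), (3761,3697),
   (3785,3657), (7821,3725), (11574,11572), (3556,11748), (11294,11550), (8478,11550),
   (11736,11544), (10098,1906), (6201,6969), (4921,6969), (3044,7140), (11378,11634),
   (8562,11634), (7737,7736), (7908,7716), (7378,11474), (1635,13923), (14433,14435),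
   (7302,7366), (13899,13387), (14411,13387), (9057,9185), (11373,11361), (11377,11361),
   (12691,14739), (2451,14739), (13458,13459), (13971,13459), (9161,5065), (11337,11465),
   (12678,12679), (2503,2439), (13454,13446), (13494,13446), (1671,13959), (5010,5074),
   (12909,12897), (12913,12897), (2531,2403), (5006,4998), (5046,4998), (12873,12875),
   (2379,14667), (10062,1870), (3032,7128), (6189,6957), (4909,6957), (11342,11598),
   (8526,11598), (7896,7704), (7725,7724), (6321,7089), (5041,7089), (7309,6285), (14477,6285),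
   (4749,5005), (10038,10036), (2020,10212), (9246,10014), (8990,10014), (10200,10008),
   (7857,3761), (11318,11574), (8502,11574), (3812,3556), (2532,3556), (7198,11294),
   (12574,8478), (3544,11736), (9330,10098), (9074,10098), (7225,6201), (14393,6201),
   (4665,4921), (9017,4921), (12658,8562), (7314,7378), (1763,1635), (14445,14433),
   (14449,14433), (7310,7302), (7350,7302), (1611,13899), (14409,14411), (9069,9057),
   (9073,9057), (11341,11373), (11309,11373), (11385,11377), (12690,12691), (2515,2451),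
   (13470,13458), (13490,13458), (1683,13971), (9033,9161), (12686,12678), (12726,12678),
   (2507,2503), (2535,2503), (13390,13454), (13366,13494), (1735,1671), (5022,5010), (5042,5010),
   (12877,12909), (12845,12909), (12921,12913), (12977,12913), (4918,5046), (9294,10062),
   (9038,10062), (2520,3032), (2008,3032), (7213,6189), (14381,6189), (4653,4909), (9005,4909),
   (12622,8526), (3800,7896), (7345,6321), (14513,6321), (4785,5041), (14413,14477),
   (12941,4749), (9270,10038), (9014,10038), (1764,2020), (13342,9246), (4894,8990),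
   (7222,11318), (12598,8502), (7326,7198), (12702,12574), (13426,9330), (11321,7225),
   (14457,14393), (12857,4665), (9081,9017), (12722,12658), (7346,7314), (1767,1763),
   (1747,1763), (1739,1611), (9037,9069), (2523,2515), (1752,2008), (1755,1747)]

lemma okList_pairs : okList [root] pairs = true := by decide +kernel

lemma complete_pairs : ∀ a0 a1 : Fin 4, a0 ≠ a1 → ∀ a2 : Fin 4, a0 ≠ a2 → a1 ≠ a2 →
    ∀ a3 : Fin 4, a1 ≠ a3 → a2 ≠ a3 → ∀ a4 : Fin 4, a0 ≠ a4 → ∀ a5 : Fin 4, a0 ≠ a5 → a4 ≠ a5 →
    ∀ a6 : Fin 4, a4 ≠ a6 → a5 ≠ a6 → a3 ≠ a6 →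
    (root :: pairs.map Prod.fst).contains (a0.val + 4 * a1.val + 16 * a2.val + 64 * a3.val +
      256 * a4.val + 1024 * a5.val + 4096 * a6.val) = true := by
  decide +kernel

lemma last_value : ∀ a b x y z w : Fin 5, (a ≠ b ∧ x ≠ a ∧ x ≠ b ∧ y ≠ a ∧ y ≠ b ∧ x ≠ y ∧
    z ≠ a ∧ z ≠ b ∧ x ≠ z ∧ y ≠ z) → (w ≠ a ∧ w ≠ b ∧ y ≠ w ∧ z ≠ w) → w = x := by
  decide +kernel

lemma properN_spec {n : ℕ} (h : properN n = true) {M : ℕ} (hM : 4 ≤ M) : PropC M (col n) := by
  rw [propC_iff]
  simp only [properN, Bool.and_eq_true, bne_iff_ne, ne_eq] at h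
  obtain ⟨⟨⟨⟨⟨⟨⟨⟨⟨⟨h1, h2⟩, h3⟩, h4⟩, h5⟩, h6⟩, h7⟩, h8⟩, h9⟩, h10⟩, h11⟩ := h
  refine ⟨?_, ?_⟩
  · intro x
    have : dg n x < 4 := Nat.mod_lt _ (by norm_num)
    simp only [col]
    omega
  · simp only [col, ne_eq, Nat.add_right_cancel_iff]
    exact ⟨h1, h2, h3, h4, h5, h6, h7, h8, h9, h10, h11⟩

lemma oneDiff_spec {n m : ℕ} (h : oneDiff n m = true) :
    ∃ v : Fin 7, ∀ w, w ≠ v → col n w = col m w := by
  simp only [oneDiff, List.any_eq_true, List.mem_range, List.all_eq_true, Bool.or_eq_true,
    beq_iff_eq] at h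
  obtain ⟨v, hv, h⟩ := h
  refine ⟨⟨v, hv⟩, fun w hw => ?_⟩
  rcases h w w.2 with h1 | h1
  · exact absurd (Fin.ext h1) hw
  · simp only [col, h1]

lemma okList_spec {M : ℕ} (hM : 4 ≤ M) : ∀ (rest : List (ℕ × ℕ)) (seen : List ℕ),
    okList seen rest = true →
    (∀ s ∈ seen, PropC M (col s) ∧ Relation.ReflTransGen (StepC M) (col s) (col root)) →
    ∀ s ∈ rest.map Prod.fst,
      PropC M (col s) ∧ Relation.ReflTransGen (StepC M) (col s) (col root)
  | [], _, _, _ => by simp
  | nm :: rest, seen, h, hs => by
    simp only [okList, Bool.and_eq_true, List.contains_iff_mem] at h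
    obtain ⟨⟨⟨h1, h2⟩, h3⟩, h4⟩ := h
    have hm := hs _ h1
    have hn : PropC M (col nm.1) ∧ Relation.ReflTransGen (StepC M) (col nm.1) (col root) :=
      ⟨properN_spec h3 hM, Relation.ReflTransGen.head
        ⟨properN_spec h3 hM, hm.1, oneDiff_spec h2⟩ hm.2⟩
    have hs' : ∀ s ∈ nm.1 :: seen, PropC M (col s) ∧
        Relation.ReflTransGen (StepC M) (col s) (col root) := by
      intro s hsm
      rw [List.mem_cons] at hsm
      rcases hsm with rfl | hsm
      · exact hn
      · exact hs s hsm
    intro s hsm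
    rw [List.map_cons, List.mem_cons] at hsm
    rcases hsm with rfl | hsm
    · exact hn
    · exact okList_spec hM rest _ h4 hs' s hsm

lemma prop_root {M : ℕ} (hM : 4 ≤ M) : PropC M (col root) := properN_spec (by decide) hM

/-- All colourings with colours `1, ..., 4` are connected to the root colouring. -/
lemma four_mixing {M : ℕ} (hM : 4 ≤ M) {c : Fin 7 → ℕ} (hc : PropC M c) (h4 : ∀ x, c x ≤ 4) :
    Relation.ReflTransGen (StepC M) c (col root) := by
  have hc' := (propC_iff M c).1 hc
  obtain ⟨h1, h01, h02, h04, h05, h12, h13, h23, h45, h46, h56, h36⟩ := hc'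
  have hb : ∀ x, c x - 1 < 4 := fun x => by have := h4 x; omega
  have hne : ∀ x y, c x ≠ c y → (⟨c x - 1, hb x⟩ : Fin 4) ≠ ⟨c y - 1, hb y⟩ := by
    intro x y hxy h
    have h2 := congrArg Fin.val h
    simp only at h2
    have := h1 x
    have := h1 y
    omega
  have key := complete_pairs ⟨c 0 - 1, hb 0⟩ ⟨c 1 - 1, hb 1⟩ (hne _ _ h01) ⟨c 2 - 1, hb 2⟩
    (hne _ _ h02) (hne _ _ h12) ⟨c 3 - 1, hb 3⟩ (hne _ _ h13) (hne _ _ h23) ⟨c 4 - 1, hb 4⟩
    (hne _ _ h04) ⟨c 5 - 1, hb 5⟩ (hne _ _ h05) (hne _ _ h45) ⟨c 6 - 1, hb 6⟩ (hne _ _ h46)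
    (hne _ _ h56) (hne _ _ h36)
  rw [List.contains_iff_mem] at key
  simp only at key
  set n := (c 0 - 1) + 4 * (c 1 - 1) + 16 * (c 2 - 1) + 64 * (c 3 - 1) + 256 * (c 4 - 1) +
    1024 * (c 5 - 1) + 4096 * (c 6 - 1) with hn
  have hcol : col n = c := by
    funext x
    have b0 := hb 0
    have b1 := hb 1
    have b2 := hb 2
    have b3 := hb 3
    have b4 := hb 4
    have b5 := hb 5
    have b6 := hb 6
    have l0 := h1 0
    have l1 := h1 1
    have l2 := h1 2
    have l3 := h1 3
    have l4 := h1 4
    have l5 := h1 5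
    have l6 := h1 6
    fin_cases x
    · change n / 4 ^ 0 % 4 + 1 = c 0
      norm_num; omega
    · change n / 4 ^ 1 % 4 + 1 = c 1
      norm_num; omega
    · change n / 4 ^ 2 % 4 + 1 = c 2
      norm_num; omega
    · change n / 4 ^ 3 % 4 + 1 = c 3
      norm_num; omega
    · change n / 4 ^ 4 % 4 + 1 = c 4
      norm_num; omega
    · change n / 4 ^ 5 % 4 + 1 = c 5
      norm_num; omega
    · change n / 4 ^ 6 % 4 + 1 = c 6
      norm_num; omega
  have hroot : PropC M (col root) ∧ Relation.ReflTransGen (StepC M) (col root) (col root) :=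
    ⟨prop_root hM, Relation.ReflTransGen.refl⟩
  rw [List.mem_cons] at key
  rw [← hcol]
  rcases key with h | h
  · rw [h]
  · refine (okList_spec hM pairs [root] okList_pairs ?_ n h).2
    intro s hs
    rw [List.mem_singleton] at hs
    rw [hs]
    exact hroot

/-! ## Reduction to four colours -/

lemma StepC.symm {M : ℕ} {c d : Fin 7 → ℕ} (h : StepC M c d) : StepC M d c :=
  ⟨h.2.1, h.1, h.2.2.imp fun _ hv w hw => (hv w hw).symm⟩

/-- Recolouring one vertex. -/
lemma step_update {M : ℕ} {c : Fin 7 → ℕ} (hc : PropC M c) (v : Fin 7) (a : ℕ) (ha1 : 1 ≤ a)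
    (haM : a ≤ M) (hnb : ∀ w, e v w = true → c w ≠ a) :
    PropC M (Function.update c v a) ∧ StepC M c (Function.update c v a) := by
  have hp : PropC M (Function.update c v a) := by
    refine ⟨fun x => ?_, fun x y hxy => ?_⟩
    · by_cases hx : x = v
      · subst hx; rw [Function.update_self]; exact ⟨ha1, haM⟩
      · rw [Function.update_of_ne hx]; exact hc.1 x
    · by_cases hx : x = v
      · subst hx
        have hy : y ≠ x := by
          rintro rfl
          rw [e_irrefl] at hxy; cases hxy
        rw [Function.update_self, Function.update_of_ne hy]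
        exact (hnb y hxy).symm
      · by_cases hy : y = v
        · subst hy
          rw [Function.update_self, Function.update_of_ne hx]
          exact hnb x (by rw [e_symm]; exact hxy)
        · rw [Function.update_of_ne hx, Function.update_of_ne hy]
          exact hc.2 x y hxy
  exact ⟨hp, hc, hp, v, fun w hw => (Function.update_of_ne hw a c).symm⟩

/-- Non-hub vertices have at most three neighbours. -/
lemma three_nbs : ∀ v : Fin 7, v ≠ 0 → ∃ x y z : Fin 7, ∀ w, e v w = true →
    w = x ∨ w = y ∨ w = z := by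
  decide +kernel

lemma free_colour (p q r : ℕ) : ∃ a, 1 ≤ a ∧ a ≤ 4 ∧ p ≠ a ∧ q ≠ a ∧ r ≠ a := by
  by_cases h1 : p ≠ 1 ∧ q ≠ 1 ∧ r ≠ 1
  · exact ⟨1, by omega, by omega, h1.1, h1.2.1, h1.2.2⟩
  · by_cases h2 : p ≠ 2 ∧ q ≠ 2 ∧ r ≠ 2
    · exact ⟨2, by omega, by omega, h2.1, h2.2.1, h2.2.2⟩
    · by_cases h3 : p ≠ 3 ∧ q ≠ 3 ∧ r ≠ 3
      · exact ⟨3, by omega, by omega, h3.1, h3.2.1, h3.2.2⟩
      · exact ⟨4, by omega, by omega, by omega, by omega, by omega⟩

/-- One can make all vertices but the hub have colours at most four. -/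
lemma push_nonhub {M : ℕ} (hM : 4 ≤ M) (n : ℕ) : ∀ c : Fin 7 → ℕ, PropC M c →
    (Finset.univ.filter (fun x => 4 < c x)).card ≤ n →
    ∃ d, PropC M d ∧ Relation.ReflTransGen (StepC M) c d ∧ (∀ x, x ≠ 0 → d x ≤ 4) := by
  induction n with
  | zero =>
    intro c hc hn
    refine ⟨c, hc, Relation.ReflTransGen.refl, fun x _ => ?_⟩
    by_contra hx
    push Not at hx
    have : x ∈ Finset.univ.filter (fun x => 4 < c x) := by simp [hx]
    have := Finset.card_pos.2 ⟨x, this⟩
    omega
  | succ n ih =>
    intro c hc hn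
    by_cases hall : ∀ x, x ≠ 0 → c x ≤ 4
    · exact ⟨c, hc, Relation.ReflTransGen.refl, hall⟩
    · push Not at hall
      obtain ⟨v, hv0, hv⟩ := hall
      obtain ⟨x, y, z, hxyz⟩ := three_nbs v hv0
      obtain ⟨a, ha1, ha4, hax, hay, haz⟩ := free_colour (c x) (c y) (c z)
      have hs := step_update hc v a ha1 (by omega) (by
        intro w hw
        rcases hxyz w hw with rfl | rfl | rfl
        · exact hax
        · exact hay
        · exact haz)
      obtain ⟨d, hd1, hd2, hd3⟩ := ih (Function.update c v a) hs.1 (by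
        have hsub : Finset.univ.filter (fun x => 4 < Function.update c v a x) ⊆
            (Finset.univ.filter (fun x => 4 < c x)).erase v := by
          intro w hw
          simp only [Finset.mem_filter, Finset.mem_univ, true_and, Finset.mem_erase] at hw ⊢
          by_cases hwv : w = v
          · subst hwv
            rw [Function.update_self] at hw
            omega
          · rw [Function.update_of_ne hwv] at hw
            exact ⟨hwv, hw⟩
        have h1 := Finset.card_le_card hsub
        rw [Finset.card_erase_of_mem (by simp [hv])] at h1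
        omega)
      exact ⟨d, hd1, Relation.ReflTransGen.head hs.2 hd2, hd3⟩

/-- Every colouring is connected to the root colouring. -/
lemma all_mixing {M : ℕ} (hM : 4 ≤ M) {c : Fin 7 → ℕ} (hc : PropC M c) :
    Relation.ReflTransGen (StepC M) c (col root) := by
  obtain ⟨d, hd, hcd, hd4⟩ := push_nonhub hM _ c hc le_rfl
  refine hcd.trans ?_
  by_cases h0 : d 0 ≤ 4
  · refine four_mixing hM hd fun x => ?_
    by_cases hx : x = 0
    · rw [hx]; exact h0
    · exact hd4 x hx
  · push Not at h0
    have hd' := (propC_iff M d).1 hd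
    obtain ⟨h1, h01, h02, h04, h05, h12, h13, h23, h45, h46, h56, h36⟩ := hd'
    have l1 := hd4 1 (by decide)
    have l2 := hd4 2 (by decide)
    have l3 := hd4 3 (by decide)
    have l4 := hd4 4 (by decide)
    have l5 := hd4 5 (by decide)
    have l6 := hd4 6 (by decide)
    have m1 := (h1 1).1
    have m2 := (h1 2).1
    have m3 := (h1 3).1
    have m4 := (h1 4).1
    have m5 := (h1 5).1
    have m6 := (h1 6).1
    have hubnb : ∀ w : Fin 7, e 0 w = true → w = 1 ∨ w = 2 ∨ w = 4 ∨ w = 5 := by decide
    have onenb : ∀ w : Fin 7, e 1 w = true → w = 0 ∨ w = 2 ∨ w = 3 := by decide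
    by_cases hfree : ∃ a, 1 ≤ a ∧ a ≤ 4 ∧ d 1 ≠ a ∧ d 2 ≠ a ∧ d 4 ≠ a ∧ d 5 ≠ a
    · obtain ⟨a, ha1, ha4, a1, a2, a3, a4⟩ := hfree
      have hs := step_update hd 0 a ha1 (by omega) (by
        intro w hw
        rcases hubnb w hw with rfl | rfl | rfl | rfl <;> assumption)
      refine Relation.ReflTransGen.head hs.2 (four_mixing hM hs.1 fun x => ?_)
      by_cases hx : x = 0
      · rw [hx, Function.update_self]; exact ha4
      · rw [Function.update_of_ne hx]; exact hd4 x hx
    · -- all four colours occur around the hub; first recolour vertex 1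
      have hdist : d 1 ≠ d 4 ∧ d 1 ≠ d 5 ∧ d 2 ≠ d 4 ∧ d 2 ≠ d 5 := by
        by_contra hcon
        apply hfree
        obtain ⟨a, ha1, ha4, ha⟩ : ∃ a, 1 ≤ a ∧ a ≤ 4 ∧
            (d 1 ≠ a ∧ d 2 ≠ a ∧ d 4 ≠ a ∧ d 5 ≠ a) := by
          by_cases e1 : d 1 = d 4
          · obtain ⟨a, ha1, ha4, b1, b2, b3⟩ := free_colour (d 1) (d 2) (d 5)
            exact ⟨a, ha1, ha4, b1, b2, e1 ▸ b1, b3⟩
          · by_cases e2 : d 1 = d 5
            · obtain ⟨a, ha1, ha4, b1, b2, b3⟩ := free_colour (d 1) (d 2) (d 4)
              exact ⟨a, ha1, ha4, b1, b2, b3, e2 ▸ b1⟩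
            · by_cases e3 : d 2 = d 4
              · obtain ⟨a, ha1, ha4, b1, b2, b3⟩ := free_colour (d 1) (d 2) (d 5)
                exact ⟨a, ha1, ha4, b1, b2, e3 ▸ b2, b3⟩
              · by_cases e4 : d 2 = d 5
                · obtain ⟨a, ha1, ha4, b1, b2, b3⟩ := free_colour (d 1) (d 2) (d 4)
                  exact ⟨a, ha1, ha4, b1, b2, b3, e4 ▸ b2⟩
                · exact absurd ⟨e1, e2, e3, e4⟩ hcon
        exact ⟨a, ha1, ha4, ha⟩
      obtain ⟨d14, d15, d24, d25⟩ := hdist
      obtain ⟨b, hb45, hb3⟩ : ∃ b, (b = d 4 ∨ b = d 5) ∧ d 3 ≠ b := by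
        by_cases h : d 3 = d 4
        · exact ⟨d 5, Or.inr rfl, by rw [h]; exact h45⟩
        · exact ⟨d 4, Or.inl rfl, h⟩
      have hs := step_update hd 1 b (by omega) (by omega) (by
        intro w hw
        rcases onenb w hw with rfl | rfl | rfl
        · omega
        · rcases hb45 with rfl | rfl
          · exact d24
          · exact d25
        · exact hb3)
      have hs2 := step_update hs.1 0 (d 1) m1 (by omega) (by
        intro w hw
        rcases hubnb w hw with rfl | rfl | rfl | rfl
        · rw [Function.update_self]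
          rcases hb45 with rfl | rfl
          · exact d14.symm
          · exact d15.symm
        · rw [Function.update_of_ne (by decide)]; exact h12.symm
        · rw [Function.update_of_ne (by decide)]; exact d14.symm
        · rw [Function.update_of_ne (by decide)]; exact d15.symm)
      refine Relation.ReflTransGen.head hs.2 (Relation.ReflTransGen.head hs2.2
        (four_mixing hM hs2.1 fun x => ?_))
      by_cases hx : x = 0
      · rw [hx, Function.update_self]; exact l1
      · rw [Function.update_of_ne hx]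
        by_cases hx1 : x = 1
        · rw [hx1, Function.update_self]; omega
        · rw [Function.update_of_ne hx1]; exact hd4 x hx

/-! ## From interval colourings to circular colourings -/

/-- Interval colourings of the spindle. -/
def Valid (k q : ℕ) (h : Fin 7 → ℕ) : Prop :=
  (∀ x, q ≤ h x ∧ h x + q ≤ k) ∧ ∀ x y, e x y = true → h x + q ≤ h y ∨ h y + q ≤ h x

/-- The map with colour `p` at the universal vertex and `p + h x` at `x`. -/
def Phi {k : ℕ} (hk : 0 < k) (p : ℕ) (h : Fin 7 → ℕ) : Option (Fin 7) → Fin k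
  | none => ⟨p % k, Nat.mod_lt _ hk⟩
  | some x => ⟨(p + h x) % k, Nat.mod_lt _ hk⟩

lemma mod_cases {k a : ℕ} (ha : a < 2 * k) (hk : 0 < k) :
    (a < k ∧ a % k = a) ∨ (k ≤ a ∧ a % k = a - k) := by
  rcases lt_or_ge a k with h | h
  · exact Or.inl ⟨h, Nat.mod_eq_of_lt h⟩
  · right
    refine ⟨h, ?_⟩
    rw [Nat.mod_eq_sub_mod h, Nat.mod_eq_of_lt (by omega)]

lemma abs_bounds {k q : ℕ} {a b : ℤ} (h : (q ≤ a - b ∧ a - b ≤ k - q) ∨
    (q ≤ b - a ∧ b - a ≤ k - q)) : (q : ℤ) ≤ |a - b| ∧ |a - b| ≤ (k : ℤ) - q := by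
  rcases h with ⟨h1, h2⟩ | ⟨h1, h2⟩
  · rw [abs_of_nonneg (by omega)]; exact ⟨h1, h2⟩
  · rw [abs_of_nonpos (by omega)]; omega

lemma phi_col {k q : ℕ} (hq : 0 < q) (hk : 0 < k) {p : ℕ} (hp : p < k) {h : Fin 7 → ℕ}
    (hh : Valid k q h) : IsCircCol G k q (Phi hk p h) := by
  have hnone : ∀ x, (q : ℤ) ≤ |((Phi hk p h none : ℕ) : ℤ) - ((Phi hk p h (some x) : ℕ) : ℤ)| ∧
      |((Phi hk p h none : ℕ) : ℤ) - ((Phi hk p h (some x) : ℕ) : ℤ)| ≤ (k : ℤ) - (q : ℤ) := by
    intro x
    apply abs_bounds
    have h1 := hh.1 x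
    simp only [Phi]
    rw [Nat.mod_eq_of_lt hp]
    rcases mod_cases (show p + h x < 2 * k by omega) hk with ⟨h2, h3⟩ | ⟨h2, h3⟩ <;>
      rw [h3] <;> omega
  rintro (_ | x) (_ | y) hadj
  · exact hadj.elim
  · exact hnone y
  · rw [abs_sub_comm]; exact hnone x
  · have h1 := hh.1 x
    have h2 := hh.1 y
    have h3 := hh.2 x y hadj
    apply abs_bounds
    simp only [Phi]
    rcases mod_cases (show p + h x < 2 * k by omega) hk with ⟨h4, h5⟩ | ⟨h4, h5⟩ <;>
      rcases mod_cases (show p + h y < 2 * k by omega) hk with ⟨h6, h7⟩ | ⟨h6, h7⟩ <;>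
      rw [h5, h7] <;> omega

/-- Every circular colouring comes from an interval colouring. -/
lemma exists_valid {k q : ℕ} (hk : 0 < k) (hq : 0 < q) {f : Option (Fin 7) → Fin k}
    (hf : IsCircCol G k q f) : ∃ p < k, ∃ h, Valid k q h ∧ f = Phi hk p h := by
  have habs : ∀ u v, G.Adj u v → ((q : ℤ) ≤ (f u : ℕ) - (f v : ℕ) ∧
      ((f u : ℕ) : ℤ) - (f v : ℕ) ≤ k - q) ∨ ((q : ℤ) ≤ (f v : ℕ) - (f u : ℕ) ∧
      ((f v : ℕ) : ℤ) - (f u : ℕ) ≤ k - q) := by
    intro u v huv
    obtain ⟨h1, h2⟩ := hf u v huv
    rcases abs_cases (((f u : ℕ) : ℤ) - ((f v : ℕ) : ℤ)) with ⟨h3, h4⟩ | ⟨h3, h4⟩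
    · left; rw [h3] at h1 h2; exact ⟨h1, h2⟩
    · right; rw [h3] at h1 h2; omega
  set p := (f none : ℕ) with hp
  have hpk : p < k := (f none).2
  refine ⟨p, hpk, fun x => ((f (some x) : ℕ) + (k - p)) % k, ⟨fun x => ?_, fun x y hxy => ?_⟩, ?_⟩
  · have h1 := habs none (some x) trivial
    have h2 := (f (some x)).2
    simp only
    rcases mod_cases (show (f (some x) : ℕ) + (k - p) < 2 * k by omega) hk with ⟨h4, h5⟩ | ⟨h4, h5⟩
      <;> rw [h5] <;> omega
  · have hx := habs none (some x) trivial
    have hy := habs none (some y) trivial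
    have hxy' := habs (some x) (some y) hxy
    have h2 := (f (some x)).2
    have h3 := (f (some y)).2
    simp only
    rcases mod_cases (show (f (some x) : ℕ) + (k - p) < 2 * k by omega) hk with ⟨h4, h5⟩ | ⟨h4, h5⟩
      <;> rcases mod_cases (show (f (some y) : ℕ) + (k - p) < 2 * k by omega) hk with
        ⟨h6, h7⟩ | ⟨h6, h7⟩ <;> rw [h5, h7] <;> omega
  · funext u
    cases u with
    | none =>
      apply Fin.ext
      simp only [Phi]
      rw [Nat.mod_eq_of_lt hpk]
    | some x =>
      apply Fin.ext
      simp only [Phi]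
      have h2 := (f (some x)).2
      rw [Nat.add_mod_mod, show p + ((f (some x) : ℕ) + (k - p)) = (f (some x) : ℕ) + k by omega,
        Nat.add_mod_right, Nat.mod_eq_of_lt h2]

lemma step_phi {k q : ℕ} (hq : 0 < q) (hk : 0 < k) {p : ℕ} (hp : p < k) {h h' : Fin 7 → ℕ}
    (hh : Valid k q h) (hh' : Valid k q h') (v : Fin 7) (hv : ∀ w, w ≠ v → h w = h' w) :
    Step G k q (Phi hk p h) (Phi hk p h') := by
  refine ⟨phi_col hq hk hp hh, phi_col hq hk hp hh', some v, ?_⟩
  rintro (_ | w) hw
  · rfl
  · apply Fin.ext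
    simp only [Phi]
    rw [hv w (fun h => hw (by rw [h]))]

/-- Interval colourings can be pushed down to multiples of `q`. -/
lemma push_down {k q : ℕ} (hq : 0 < q) (hk : 0 < k) {p : ℕ} (hp : p < k) (n : ℕ) :
    ∀ h : Fin 7 → ℕ, Valid k q h → (Finset.univ.filter (fun x => h x % q ≠ 0)).card ≤ n →
    ∃ h' : Fin 7 → ℕ, Valid k q h' ∧ (∀ x, h' x % q = 0) ∧
      Relation.ReflTransGen (Step G k q) (Phi hk p h) (Phi hk p h') := by
  induction n with
  | zero =>
    intro h hh hn
    refine ⟨h, hh, fun x => ?_, Relation.ReflTransGen.refl⟩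
    by_contra hx
    have : x ∈ Finset.univ.filter (fun x => h x % q ≠ 0) := by simp [hx]
    have := Finset.card_pos.2 ⟨x, this⟩
    omega
  | succ n ih =>
    intro h hh hn
    by_cases hemp : (Finset.univ.filter (fun x => h x % q ≠ 0)).Nonempty
    · obtain ⟨v, hv, hmin⟩ := Finset.exists_min_image _ h hemp
      simp only [Finset.mem_filter, Finset.mem_univ, true_and] at hv hmin
      set a := q * (h v / q) with ha
      have hdiv := Nat.div_add_mod (h v) q
      have hlt := Nat.mod_lt (h v) hq
      have hqa : q ≤ a := by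
        have h1 : 1 ≤ h v / q := (Nat.one_le_div_iff hq).2 (hh.1 v).1
        calc q = q * 1 := by ring
          _ ≤ q * (h v / q) := Nat.mul_le_mul_left _ h1
      have hnew : Valid k q (Function.update h v a) := by
        have hstep : ∀ y, e v y = true → a + q ≤ h y ∨ h y + q ≤ a := by
          intro y hvy
          rcases hh.2 v y hvy with h1 | h1
          · left; omega
          · right
            by_cases hy : h y % q = 0
            · obtain ⟨t, ht⟩ := Nat.dvd_of_mod_eq_zero hy
              have h2 : t + 1 ≤ h v / q := by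
                rw [Nat.le_div_iff_mul_le hq]
                calc (t + 1) * q = q * t + q := by ring
                  _ = h y + q := by rw [ht]
                  _ ≤ h v := h1
              calc h y + q = q * (t + 1) := by rw [ht]; ring
                _ ≤ q * (h v / q) := Nat.mul_le_mul_left _ h2
            · have := hmin y hy
              omega
        refine ⟨fun x => ?_, fun x y hxy => ?_⟩
        · by_cases hx : x = v
          · subst hx
            rw [Function.update_self]
            have := hh.1 x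
            omega
          · rw [Function.update_of_ne hx]; exact hh.1 x
        · by_cases hx : x = v
          · subst hx
            have hy : y ≠ x := by
              rintro rfl
              rw [e_irrefl] at hxy; cases hxy
            rw [Function.update_self, Function.update_of_ne hy]
            exact hstep y hxy
          · by_cases hy : y = v
            · subst hy
              rw [Function.update_self, Function.update_of_ne hx]
              exact (hstep x (by rw [e_symm]; exact hxy)).symm
            · rw [Function.update_of_ne hx, Function.update_of_ne hy]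
              exact hh.2 x y hxy
      obtain ⟨h', h1, h2, h3⟩ := ih (Function.update h v a) hnew (by
        have hsub : Finset.univ.filter (fun x => Function.update h v a x % q ≠ 0) ⊆
            (Finset.univ.filter (fun x => h x % q ≠ 0)).erase v := by
          intro w hw
          simp only [Finset.mem_filter, Finset.mem_univ, true_and, Finset.mem_erase] at hw ⊢
          by_cases hwv : w = v
          · subst hwv
            rw [Function.update_self, ha, Nat.mul_mod_right] at hw
            exact absurd rfl hw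
          · rw [Function.update_of_ne hwv] at hw
            exact ⟨hwv, hw⟩
        have h1 := Finset.card_le_card hsub
        rw [Finset.card_erase_of_mem (by simp [hv])] at h1
        omega)
      exact ⟨h', h1, h2, Relation.ReflTransGen.head (step_phi hq hk hp hh hnew v
        fun w hw => (Function.update_of_ne hw a h).symm) h3⟩
    · refine ⟨h, hh, fun x => ?_, Relation.ReflTransGen.refl⟩
      by_contra hx
      exact hemp ⟨x, by simp [hx]⟩

/-- Multiples of `q` give ordinary colourings. -/
lemma valid_mul_iff {k q : ℕ} (hq : 0 < q) (c : Fin 7 → ℕ) :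
    Valid k q (fun x => q * c x) ↔ PropC (k / q - 1) c := by
  constructor
  · rintro ⟨h1, h2⟩
    refine ⟨fun x => ?_, fun x y hxy => ?_⟩
    · have h3 := h1 x
      simp only at h3
      have h4 : 1 ≤ c x := by
        by_contra hcon
        have : c x = 0 := by omega
        rw [this] at h3
        omega
      have h5 : c x + 1 ≤ k / q := by
        rw [Nat.le_div_iff_mul_le hq]
        calc (c x + 1) * q = q * c x + q := by ring
          _ ≤ k := h3.2
      exact ⟨h4, by omega⟩
    · intro heq
      have := h2 x y hxy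
      simp only at this
      rw [heq] at this
      omega
  · rintro ⟨h1, h2⟩
    refine ⟨fun x => ?_, fun x y hxy => ?_⟩
    · have h3 := h1 x
      constructor
      · calc q = q * 1 := by ring
          _ ≤ q * c x := Nat.mul_le_mul_left _ h3.1
      · have h5 : c x + 1 ≤ k / q := by omega
        rw [Nat.le_div_iff_mul_le hq] at h5
        calc q * c x + q = (c x + 1) * q := by ring
          _ ≤ k := h5
    · have h3 := h2 x y hxy
      rcases lt_or_gt_of_ne h3 with h4 | h4
      · left
        calc q * c x + q = q * (c x + 1) := by ring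
          _ ≤ q * c y := Nat.mul_le_mul_left _ h4
      · right
        calc q * c y + q = q * (c y + 1) := by ring
          _ ≤ q * c x := Nat.mul_le_mul_left _ h4

lemma lift_steps {k q : ℕ} (hq : 0 < q) (hk : 0 < k) {p : ℕ} (hp : p < k) {c d : Fin 7 → ℕ}
    (h : Relation.ReflTransGen (StepC (k / q - 1)) c d) :
    Relation.ReflTransGen (Step G k q) (Phi hk p (fun x => q * c x))
      (Phi hk p (fun x => q * d x)) := by
  induction h with
  | refl => exact Relation.ReflTransGen.refl
  | tail _ hs ih =>
    refine ih.tail ?_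
    obtain ⟨v, hv⟩ := hs.2.2
    exact step_phi hq hk hp ((valid_mul_iff hq _).2 hs.1) ((valid_mul_iff hq _).2 hs.2.1) v
      fun w hw => by rw [hv w hw]

/-- Every interval colouring is connected to the root colouring. -/
lemma to_root {k q : ℕ} (hq : 0 < q) (hk : 0 < k) (h5 : 5 * q ≤ k) {p : ℕ} (hp : p < k)
    {h : Fin 7 → ℕ} (hh : Valid k q h) :
    Relation.ReflTransGen (Step G k q) (Phi hk p h) (Phi hk p (fun x => q * col root x)) := by
  obtain ⟨h', h1, h2, h3⟩ := push_down hq hk hp _ h hh le_rfl
  refine h3.trans ?_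
  have hM : 4 ≤ k / q - 1 := by
    have : 5 ≤ k / q := by
      rw [Nat.le_div_iff_mul_le hq]; exact h5
    omega
  have heq : h' = fun x => q * (h' x / q) := by
    funext x
    have := Nat.div_add_mod (h' x) q
    rw [h2 x] at this
    omega
  have hprop : PropC (k / q - 1) (fun x => h' x / q) := by
    rw [← valid_mul_iff hq, ← heq]; exact h1
  rw [heq]
  exact lift_steps hq hk hp (all_mixing hM hprop)

lemma step_symm {k q : ℕ} {f g : Option (Fin 7) → Fin k} (h : Step G k q f g) :
    Step G k q g f :=
  ⟨h.2.1, h.1, h.2.2.imp fun _ hv w hw => (hv w hw).symm⟩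

lemma rtg_symm {k q : ℕ} {f g : Option (Fin 7) → Fin k}
    (h : Relation.ReflTransGen (Step G k q) f g) : Relation.ReflTransGen (Step G k q) g f := by
  induction h with
  | refl => exact Relation.ReflTransGen.refl
  | tail _ hs ih => exact Relation.ReflTransGen.head (step_symm hs) ih

lemma root_bounds : ∀ x, 1 ≤ col root x ∧ col root x ≤ 4 := by decide

/-- Rotating. -/
lemma rotate {k q : ℕ} (hq : 0 < q) (hk : 0 < k) (h5 : 5 * q + 1 ≤ k) (p : ℕ) (hp : p < k) :
    Relation.ReflTransGen (Step G k q) (Phi hk p (fun x => q * col root x))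
      (Phi hk 0 (fun x => q * col root x)) := by
  have hM : 4 ≤ k / q - 1 := by
    have : 5 ≤ k / q := by
      rw [Nat.le_div_iff_mul_le hq]; omega
    omega
  have hroot : Valid k q (fun x => q * col root x) :=
    (valid_mul_iff hq _).2 (prop_root hM)
  have hroot1 : Valid k q (fun x => q * col root x + 1) := by
    refine ⟨fun x => ?_, fun x y hxy => ?_⟩
    · have h1 := hroot.1 x
      have h2 := root_bounds x
      have h3 : q * col root x ≤ q * 4 := Nat.mul_le_mul_left _ h2.2
      simp only at h1 ⊢
      omega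
    · have h1 := hroot.2 x y hxy
      simp only at h1 ⊢
      omega
  induction p with
  | zero => exact Relation.ReflTransGen.refl
  | succ p ih =>
    have hp' : p < k := by omega
    refine Relation.ReflTransGen.head ?_ ((to_root hq hk (by omega) hp' hroot1).trans (ih hp'))
    refine ⟨phi_col hq hk hp hroot, phi_col hq hk hp' hroot1, none, ?_⟩
    rintro (_ | x) hx
    · exact absurd rfl hx
    · apply Fin.ext
      simp only [Phi]
      congr 1
      omega

lemma mixing_of_lt {k q : ℕ} (hq : 0 < q) (h5 : 5 * q + 1 ≤ k) : Mixing G k q := by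
  have hk : 0 < k := by omega
  intro f g hf hg
  obtain ⟨p, hp, h, hh, rfl⟩ := exists_valid hk hq hf
  obtain ⟨p', hp', h', hh', rfl⟩ := exists_valid hk hq hg
  exact ((to_root hq hk (by omega) hp hh).trans (rotate hq hk h5 p hp)).trans
    (rtg_symm ((to_root hq hk (by omega) hp' hh').trans (rotate hq hk h5 p' hp')))

/-! ## Lower bounds -/

lemma no_three {c : Fin 7 → Fin 5} {a b : Fin 5} (hab : a ≠ b) (ha : ∀ x, c x ≠ a)
    (hb : ∀ x, c x ≠ b) (hc : ∀ x y, e x y = true → c x ≠ c y) : False := by
  have h3 := last_value a b (c 0) (c 1) (c 2) (c 3) ⟨hab, ha 0, hb 0, ha 1, hb 1,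
    hc 0 1 (by decide), ha 2, hb 2, hc 0 2 (by decide), hc 1 2 (by decide)⟩
    ⟨ha 3, hb 3, hc 1 3 (by decide), hc 2 3 (by decide)⟩
  have h6 := last_value a b (c 0) (c 4) (c 5) (c 6) ⟨hab, ha 0, hb 0, ha 4, hb 4,
    hc 0 4 (by decide), ha 5, hb 5, hc 0 5 (by decide), hc 4 5 (by decide)⟩
    ⟨ha 6, hb 6, hc 4 6 (by decide), hc 5 6 (by decide)⟩
  exact hc 3 6 (by decide) (h3.trans h6.symm)

lemma five_le {k q : ℕ} (hk : 0 < k) (hq : 0 < q) {f : Option (Fin 7) → Fin k}
    (hf : IsCircCol G k q f) : 5 * q ≤ k := by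
  obtain ⟨p, hp, h, hh, -⟩ := exists_valid hk hq hf
  by_contra hcon
  push Not at hcon
  have hb : ∀ x, 1 ≤ h x / q ∧ h x / q ≤ 3 := by
    intro x
    have h1 := hh.1 x
    refine ⟨(Nat.one_le_div_iff hq).2 h1.1, ?_⟩
    have : h x / q < 4 := by
      rw [Nat.div_lt_iff_lt_mul hq]
      omega
    omega
  refine no_three (c := fun x => ⟨h x / q, by have := hb x; omega⟩) (a := 0) (b := 4) (by decide)
    ?_ ?_ ?_
  · intro x hx
    have := congrArg Fin.val hx
    simp only at this
    have h2 := (hb x).1
    rw [this] at h2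
    exact absurd h2 (by decide)
  · intro x hx
    have := congrArg Fin.val hx
    simp only at this
    have h2 := (hb x).2
    rw [this] at h2
    exact absurd h2 (by decide)
  · intro x y hxy heq
    have h1 := congrArg Fin.val heq
    simp only at h1
    rcases hh.2 x y hxy with h2 | h2
    · have h3 : h x / q + 1 ≤ h y / q := by
        rw [Nat.le_div_iff_mul_le hq]
        have := Nat.div_mul_le_self (h x) q
        calc (h x / q + 1) * q = h x / q * q + q := by ring
          _ ≤ h x + q := by omega
          _ ≤ h y := h2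
      omega
    · have h3 : h y / q + 1 ≤ h x / q := by
        rw [Nat.le_div_iff_mul_le hq]
        have := Nat.div_mul_le_self (h y) q
        calc (h y / q + 1) * q = h y / q * q + q := by ring
          _ ≤ h y + q := by omega
          _ ≤ h x := h2
      omega

lemma valid_root_five : Valid 5 1 (fun x => 1 * col root x) :=
  (valid_mul_iff Nat.one_pos _).2 (prop_root (by decide))

lemma col_five (p : ℕ) (hp : p < 5) :
    IsCircCol G 5 1 (Phi (by decide : 0 < 5) p (fun x => 1 * col root x)) :=
  phi_col Nat.one_pos (by decide) hp valid_root_five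

lemma step_five {f g : Option (Fin 7) → Fin 5} (h : Step G 5 1 f g) : f none = g none := by
  obtain ⟨hf, hg, v, hv⟩ := h
  by_contra hne
  have hvn : v = none := by
    by_contra hvn
    exact hne (hv none (fun h => hvn h.symm))
  subst hvn
  have hsome : ∀ x, f (some x) = g (some x) := fun x => hv (some x) (by simp)
  have hne' : ∀ {f : Option (Fin 7) → Fin 5}, IsCircCol G 5 1 f → ∀ u v, G.Adj u v →
      f u ≠ f v := by
    intro f hf u v huv heq
    have := (hf u v huv).1
    rw [heq] at this
    simp at this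
  refine no_three (c := fun x => f (some x)) hne ?_ ?_ ?_
  · intro x
    exact (hne' hf none (some x) trivial).symm
  · intro x
    rw [hsome x]
    exact (hne' hg none (some x) trivial).symm
  · intro x y hxy
    exact hne' hf (some x) (some y) hxy

lemma not_mixing_five : ¬ Mixing G 5 1 := by
  intro hmix
  have h := hmix _ _ (col_five 0 (by decide)) (col_five 1 (by decide))
  have key : ∀ {f g : Option (Fin 7) → Fin 5}, Relation.ReflTransGen (Step G 5 1) f g →
      f none = g none := by
    intro f g h
    induction h with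
    | refl => rfl
    | tail _ hs ih => exact ih.trans (step_five hs)
  have h1 := key h
  exact absurd h1 (by decide)

lemma threshold_eq : circMixingThreshold G = 5 := by
  unfold circMixingThreshold
  have hmem : ∀ l : ℚ, 5 < l → ((l : ℝ)) ∈ {x : ℝ | ∃ l : ℚ, x = (l : ℝ) ∧
      ∀ k q : ℕ, 0 < k → 0 < q → l ≤ (k : ℚ) / (q : ℚ) → Mixing G k q} := by
    intro l hl
    refine ⟨l, rfl, fun k q hk hq hkq => mixing_of_lt hq ?_⟩
    have hq' : (0 : ℚ) < q := by exact_mod_cast hq
    have h1 : (5 : ℚ) < (k : ℚ) / q := lt_of_lt_of_le hl hkq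
    rw [lt_div_iff₀ hq'] at h1
    have : 5 * q < k := by exact_mod_cast h1
    omega
  have hlow : ∀ x ∈ {x : ℝ | ∃ l : ℚ, x = (l : ℝ) ∧
      ∀ k q : ℕ, 0 < k → 0 < q → l ≤ (k : ℚ) / (q : ℚ) → Mixing G k q}, (5 : ℝ) ≤ x := by
    rintro x ⟨l, rfl, hl⟩
    by_contra hcon
    push Not at hcon
    have h1 : l < 5 := by exact_mod_cast hcon
    exact not_mixing_five (hl 5 1 (by decide) (by decide) (by norm_num; exact h1.le))
  apply le_antisymm
  · refine le_of_forall_pos_le_add fun ε hε => ?_
    obtain ⟨l, hl1, hl2⟩ := exists_rat_btwn (show (5 : ℝ) < 5 + ε by linarith)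
    have hl1' : (5 : ℚ) < l := by exact_mod_cast hl1
    exact le_trans (csInf_le ⟨5, hlow⟩ (hmem l hl1')) hl2.le
  · exact le_csInf ⟨_, hmem 6 (by norm_num)⟩ hlow

lemma chromatic_eq : circChromaticNumber G = 5 := by
  unfold circChromaticNumber
  apply le_antisymm
  · refine csInf_le ⟨0, ?_⟩ ⟨5, 1, by decide, by decide, by norm_num, _, col_five 0 (by decide)⟩
    rintro x ⟨k, q, -, -, rfl, -⟩
    positivity
  · refine le_csInf ⟨5, 5, 1, by decide, by decide, by norm_num, _, col_five 0 (by decide)⟩ ?_
    rintro x ⟨k, q, hk, hq, rfl, f, hf⟩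
    have h1 := five_le hk hq hf
    have hq' : (0 : ℝ) < q := by exact_mod_cast hq
    rw [le_div_iff₀ hq']
    exact_mod_cast h1

/-- There is a finite non-bipartite graph whose circular mixing threshold equals its circular
chromatic number. -/
theorem result : ∃ (V : Type) (_ : Finite V) (G : SimpleGraph V), ¬ G.Colorable 2 ∧
    circMixingThreshold G = circChromaticNumber G := by
  refine ⟨Option (Fin 7), inferInstance, G, ?_, ?_⟩
  · rintro ⟨c⟩
    have h1 : c none ≠ c (some 0) := c.valid trivial
    have h2 : c none ≠ c (some 1) := c.valid trivial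
    have h3 : c (some 0) ≠ c (some 1) := c.valid (show e 0 1 = true by decide)
    have : ∀ a b d : Fin 2, a ≠ b → a ≠ d → b ≠ d → False := by decide
    exact this _ _ _ h1 h2 h3
  · rw [threshold_eq, chromatic_eq]

end Pool.Agent.Results.MP_3baeb2_co.MixingEqCircular
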